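import Pool.Agent.W751.CV.Stm

/-!
# CV-COEF: Lebesgue measure on the coefficients in terms of the roots
-/

set_option autoImplicit false

open Polynomial Filter Topology MeasureTheory

namespace Pool.Agent.W253.CV

open Pool.Agent.W751.CD Pool.Agent.W751.CV

variable {N : ℕ}

/-! ### polynomials -/

theorem P_monic (z : Fin N → ℂ) : (P z).Monic :=
  monic_prod_of_monic _ _ fun _ _ => monic_X_sub_C _

theorem P_natDegree (z : Fin N → ℂ) : (P z).natDegree = N := by
  unfold P
  rw [natDegree_prod_of_monic _ _ fun i _ => monic_X_sub_C _]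
  simp

theorem P_eval (z : Fin N → ℂ) (w : ℂ) : (P z).eval w = ∏ i, (w - z i) := by
  unfold P
  rw [eval_prod]
  simp

theorem P_root (z : Fin N → ℂ) (w : ℂ) : (P z).eval w = 0 ↔ ∃ i, z i = w := by
  rw [P_eval, Finset.prod_eq_zero_iff]
  constructor
  · rintro ⟨i, -, h⟩
    exact ⟨i, (sub_eq_zero.1 h).symm⟩
  · rintro ⟨i, h⟩
    exact ⟨i, Finset.mem_univ i, by rw [h, sub_self]⟩

theorem P_perm (z : Fin N → ℂ) (σ : Equiv.Perm (Fin N)) : P (fun i => z (σ i)) = P z := by
  unfold P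
  exact Equiv.prod_comp σ fun i => X - C (z i)

theorem poly_coeff (a : Fin N → ℂ) (k : Fin N) : (poly a).coeff k = a k := by
  unfold poly
  rw [coeff_add, coeff_X_pow, if_neg k.2.ne, zero_add, finsetSum_coeff]
  rw [Finset.sum_eq_single k]
  · simp
  · intro j _ hj
    rw [coeff_C_mul, coeff_X_pow, if_neg, mul_zero]
    exact fun h => hj (Fin.ext h.symm)
  · intro h
    exact absurd (Finset.mem_univ k) h

theorem poly_lt (a : Fin N → ℂ) : (∑ k : Fin N, C (a k) * X ^ (k : ℕ)).degree < (N : WithBot ℕ) := by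
  refine (degree_sum_le _ _).trans_lt ?_
  rw [Finset.sup_lt_iff (WithBot.bot_lt_coe _)]
  intro k _
  refine (degree_C_mul_X_pow_le _ _).trans_lt ?_
  exact_mod_cast k.2

theorem poly_monic (a : Fin N → ℂ) : (poly a).Monic := monic_X_pow_add (poly_lt a)

theorem poly_natDegree (a : Fin N → ℂ) : (poly a).natDegree = N := by
  refine natDegree_eq_of_degree_eq_some ?_
  unfold poly
  rw [degree_add_eq_left_of_degree_lt, degree_X_pow]
  rw [degree_X_pow]
  exact poly_lt a

/-- a monic polynomial of degree `N` is determined by its lower coefficients -/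
theorem monic_ext {f g : ℂ[X]} (hf : f.Monic) (hg : g.Monic) (hf1 : f.natDegree = N)
    (hg1 : g.natDegree = N) (h : ∀ k : Fin N, f.coeff k = g.coeff k) : f = g := by
  ext k
  rcases lt_trichotomy k N with hk | hk | hk
  · exact h ⟨k, hk⟩
  · have h1 : f.coeff k = 1 := by rw [hk, ← hf1]; exact hf
    have h2 : g.coeff k = 1 := by rw [hk, ← hg1]; exact hg
    rw [h1, h2]
  · rw [coeff_eq_zero_of_natDegree_lt (by omega), coeff_eq_zero_of_natDegree_lt (by omega)]

theorem poly_Phi (z : Fin N → ℂ) : poly (Phi z) = P z :=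
  monic_ext (poly_monic _) (P_monic z) (poly_natDegree _) (P_natDegree z)
    fun k => poly_coeff _ k

theorem exists_roots (a : Fin N → ℂ) : ∃ z : Fin N → ℂ, poly a = P z := by
  have hs : (poly a).Splits := IsAlgClosed.splits (poly a)
  have hc : (poly a).roots.card = N := (splits_iff_card_roots.1 hs).trans (poly_natDegree a)
  have hp : (poly a) = ((poly a).roots.map fun x => X - C x).prod :=
    hs.eq_prod_roots_of_monic (poly_monic a)
  generalize (poly a).roots = R at hc hp
  obtain ⟨l, rfl⟩ : ∃ l : List ℂ, (l : Multiset ℂ) = R := ⟨R.toList, R.coe_toList⟩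
  have hl : l.length = N := by simpa using hc
  subst hl
  refine ⟨l.get, ?_⟩
  rw [hp]
  unfold P
  rw [Multiset.map_coe, Multiset.prod_coe]
  conv_lhs => rw [← List.ofFn_get l]
  rw [List.map_ofFn, List.prod_ofFn]
  rfl

theorem Phi_poly (a : Fin N → ℂ) (z : Fin N → ℂ) (h : poly a = P z) : Phi z = a := by
  funext k
  unfold Phi
  rw [← h, poly_coeff]

theorem Phi_perm (z : Fin N → ℂ) (σ : Equiv.Perm (Fin N)) : Phi (fun i => z (σ i)) = Phi z := by
  unfold Phi
  rw [P_perm]

/-! ### the density -/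

theorem vd_perm (z : Fin N → ℂ) (σ : Equiv.Perm (Fin N)) : vd (fun i => z (σ i)) = vd z := by
  unfold vd
  have h1 : Matrix.vandermonde (fun i => z (σ i)) = (Matrix.vandermonde z).submatrix σ id := by
    ext i j
    simp [Matrix.vandermonde_apply]
  rw [h1, Matrix.det_permute, norm_mul]
  have h2 : ‖((Equiv.Perm.sign σ : ℤ) : ℂ)‖ = 1 := by
    rcases Int.units_eq_one_or (Equiv.Perm.sign σ) with h | h <;> rw [h] <;> simp
  rw [h2, one_mul]

theorem vd_add (z : Fin N → ℂ) (p : ℂ) : vd (fun i => z i + p) = vd z := by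
  unfold vd
  rw [Matrix.det_vandermonde, Matrix.det_vandermonde]
  simp only [add_sub_add_right_eq_sub]

theorem continuous_vd : Continuous (vd : (Fin N → ℂ) → ℝ) := by
  unfold vd
  simp only [Matrix.det_vandermonde]
  fun_prop

theorem measurable_vd : Measurable fun z : Fin N → ℂ => ENNReal.ofReal (vd z) :=
  ENNReal.measurable_ofReal.comp continuous_vd.measurable

/-! ### sorted tuples -/

/-- tuples of points of the disc -/
def KK (N : ℕ) (p : ℂ) (ρ : ℝ) : Set (Fin N → ℂ) := {z | ∀ i, ‖z i - p‖ ≤ ρ}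

/-- two of the real parts are equal -/
def DD (N : ℕ) : Set (Fin N → ℂ) := {z | ∃ i j : Fin N, i ≠ j ∧ (z i).re = (z j).re}

/-- sorted tuples -/
def SS (N : ℕ) : Set (Fin N → ℂ) := {z | StrictMono fun i => (z i).re}

theorem meas_KK (p : ℂ) (ρ : ℝ) : MeasurableSet (KK N p ρ) := by
  have : KK N p ρ = ⋂ i, {z | ‖z i - p‖ ≤ ρ} := by
    ext z
    simp [KK]
  rw [this]
  refine MeasurableSet.iInter fun i => ?_
  exact (isClosed_le (by fun_prop) continuous_const).measurableSet

theorem meas_SS : MeasurableSet (SS N) := by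
  have : SS N = ⋂ i : Fin N, ⋂ j : Fin N, {z | i < j → (z i).re < (z j).re} := by
    ext z
    simp [SS, StrictMono]
  rw [this]
  refine MeasurableSet.iInter fun i => MeasurableSet.iInter fun j => ?_
  by_cases h : i < j
  · simp only [h, true_imp_iff]
    exact (isOpen_lt (by fun_prop) (by fun_prop)).measurableSet
  · simp only [h, false_imp_iff, Set.ofPred_true, MeasurableSet.univ]

theorem null_re (i j : Fin N) (h : i ≠ j) :
    (volume : Measure (Fin N → ℂ)) {z | (z i).re = (z j).re} = 0 := by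
  let f : (Fin N → ℂ) →ₗ[ℝ] ℝ :=
    Complex.reLm.comp (LinearMap.proj (R := ℝ) (φ := fun _ : Fin N => ℂ) i) -
      Complex.reLm.comp (LinearMap.proj (R := ℝ) (φ := fun _ : Fin N => ℂ) j)
  have hf : ∀ z, f z = (z i).re - (z j).re := fun z => rfl
  have hset : {z : Fin N → ℂ | (z i).re = (z j).re} = (LinearMap.ker f : Set (Fin N → ℂ)) := by
    ext z
    rw [SetLike.mem_coe, LinearMap.mem_ker, hf, sub_eq_zero]
    rfl
  rw [hset]
  apply Measure.addHaar_submodule
  intro htop
  have h1 : (Pi.single i (1 : ℂ) : Fin N → ℂ) ∈ LinearMap.ker f := by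
    rw [htop]
    exact Submodule.mem_top
  rw [LinearMap.mem_ker, hf, Pi.single_eq_same, Pi.single_eq_of_ne h.symm] at h1
  simp at h1

theorem null_DD : (volume : Measure (Fin N → ℂ)) (DD N) = 0 := by
  have : DD N = ⋃ i : Fin N, ⋃ j : Fin N, {z | i ≠ j ∧ (z i).re = (z j).re} := by
    ext z
    simp [DD]
  rw [this, measure_iUnion_null_iff]
  intro i
  rw [measure_iUnion_null_iff]
  intro j
  by_cases h : i = j
  · simp [h]
  · refine measure_mono_null (fun z hz => hz.2) (null_re i j h)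

theorem sort_exists {z : Fin N → ℂ} (hz : z ∉ DD N) :
    ∃ σ : Equiv.Perm (Fin N), (fun i => z (σ i)) ∈ SS N := by
  have hinj : Function.Injective fun i => (z i).re := by
    intro i j hij
    by_contra hne
    exact hz ⟨i, j, hne, hij⟩
  refine ⟨Tuple.sort fun i => (z i).re, ?_⟩
  exact (Tuple.monotone_sort fun i => (z i).re).strictMono_of_injective
    (hinj.comp (Tuple.sort fun i => (z i).re).injective)

theorem sort_unique {z : Fin N → ℂ} {σ τ : Equiv.Perm (Fin N)}
    (hσ : (fun i => z (σ i)) ∈ SS N) (hτ : (fun i => z (τ i)) ∈ SS N) : σ = τ := by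
  have h1 := Tuple.unique_monotone (f := fun i => (z i).re) (σ := σ) (τ := τ)
    (StrictMono.monotone hσ) (StrictMono.monotone hτ)
  have hinj : Function.Injective fun i => (z i).re := by
    intro i j hij
    have h2 : (z (σ (σ.symm i))).re = (z (σ (σ.symm j))).re := by simpa using hij
    have h3 := StrictMono.injective hσ h2
    simpa using h3
  ext i
  exact congrArg Fin.val (hinj (congrFun h1 i))

theorem SS_DD {z : Fin N → ℂ} (hz : z ∈ SS N) : z ∉ DD N := by
  rintro ⟨i, j, h1, h2⟩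
  exact h1 (StrictMono.injective hz h2)

theorem inj_SS {z w : Fin N → ℂ} (hz : z ∈ SS N) (hw : w ∈ SS N) (h : Phi z = Phi w) :
    z = w := by
  have hP : P z = P w := by rw [← poly_Phi, h, poly_Phi]
  have hr : ∀ x, (∃ i, z i = x) ↔ ∃ i, w i = x := by
    intro x
    rw [← P_root, ← P_root, hP]
  have hre : Set.range (fun i => (z i).re) = Set.range fun i => (w i).re := by
    ext y
    constructor
    · rintro ⟨i, rfl⟩
      obtain ⟨j, hj⟩ := (hr (z i)).1 ⟨i, rfl⟩
      exact ⟨j, by simp only [hj]⟩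
    · rintro ⟨i, rfl⟩
      obtain ⟨j, hj⟩ := (hr (w i)).2 ⟨i, rfl⟩
      exact ⟨j, by simp only [hj]⟩
  have hre2 : (fun i => (z i).re) = fun i => (w i).re :=
    (StrictMono.range_inj hz hw).1 hre
  funext i
  obtain ⟨j, hj⟩ := (hr (z i)).1 ⟨i, rfl⟩
  have h1 : (w j).re = (w i).re := by
    rw [hj]
    exact congrFun hre2 i
  have h2 : j = i := StrictMono.injective hw h1
  rw [← hj, h2]

/-! ### the main formula -/

theorem image_volume (hJ : S_JAC) (T : Set (Fin N → ℂ)) (hT : MeasurableSet T)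
    (hinj : Set.InjOn Phi T) :
    volume (Phi '' T) = ∫⁻ z in T, ENNReal.ofReal (vd z) := by
  choose L hL hdet using hJ N
  have h := MeasureTheory.lintegral_abs_det_fderiv_eq_addHaar_image volume hT
    (fun x _ => (hL x).hasFDerivWithinAt) hinj
  rw [← h]
  simp only [hdet]

theorem differentiable_Phi (hJ : S_JAC) : Differentiable ℝ (Phi : (Fin N → ℂ) → (Fin N → ℂ)) := by
  intro z
  obtain ⟨L, hL, -⟩ := hJ N z
  exact hL.differentiableAt

theorem perm_mp (σ : Equiv.Perm (Fin N)) :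
    MeasurePreserving (fun z : Fin N → ℂ => fun i => z (σ i)) volume volume := by
  have h := volume_measurePreserving_piCongrLeft (fun _ : Fin N => ℂ) σ.symm
  have h2 : (MeasurableEquiv.piCongrLeft (fun _ : Fin N => ℂ) σ.symm : (Fin N → ℂ) → (Fin N → ℂ)) =
      fun z i => z (σ i) := by
    funext z i
    have := Equiv.piCongrLeft_apply (P := fun _ : Fin N => ℂ) (e := σ.symm) z i
    rw [MeasurableEquiv.coe_piCongrLeft]
    rw [this]
    simp
  rwa [h2] at h

theorem perm_lintegral (T : Set (Fin N → ℂ)) (hT : MeasurableSet T) (σ : Equiv.Perm (Fin N)) :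
    ∫⁻ z in {z | (fun i => z (σ i)) ∈ T}, ENNReal.ofReal (vd z) =
      ∫⁻ z in T, ENNReal.ofReal (vd z) := by
  have h := (perm_mp σ).setLIntegral_comp_preimage hT (measurable_vd (N := N))
  rw [← h]
  refine setLIntegral_congr_fun ?_ ?_
  · exact (perm_mp σ).measurable hT
  · intro z _
    simp only [vd_perm]

theorem sum_perm (T A : Set (Fin N → ℂ)) (hT : MeasurableSet T)
    (hperm : ∀ z ∈ A, ∀ σ : Equiv.Perm (Fin N), (fun i => z (σ i)) ∈ A)
    (hTA : T = A ∩ SS N) :
    (N.factorial : ENNReal) * ∫⁻ z in T, ENNReal.ofReal (vd z) =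
      ∫⁻ z in A, ENNReal.ofReal (vd z) := by
  have hmeas : ∀ σ : Equiv.Perm (Fin N), MeasurableSet {z : Fin N → ℂ | (fun i => z (σ i)) ∈ T} :=
    fun σ => (perm_mp σ).measurable hT
  have hU : ∫⁻ z in (⋃ σ : Equiv.Perm (Fin N), {z : Fin N → ℂ | (fun i => z (σ i)) ∈ T}),
      ENNReal.ofReal (vd z) = ∑' σ : Equiv.Perm (Fin N),
        ∫⁻ z in {z : Fin N → ℂ | (fun i => z (σ i)) ∈ T}, ENNReal.ofReal (vd z) := by
    refine lintegral_iUnion hmeas ?_ _
    intro σ τ hne
    rw [Function.onFun, Set.disjoint_left]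
    intro z h1 h2
    rw [Set.mem_ofPred_eq, hTA] at h1 h2
    exact hne (sort_unique h1.2 h2.2)
  simp only [perm_lintegral T hT] at hU
  rw [tsum_fintype, Finset.sum_const, Finset.card_univ, Fintype.card_perm, Fintype.card_fin,
    nsmul_eq_mul] at hU
  rw [← hU]
  refine setLIntegral_congr ?_
  have hsub : (⋃ σ : Equiv.Perm (Fin N), {z : Fin N → ℂ | (fun i => z (σ i)) ∈ T}) ⊆ A := by
    intro z hz
    obtain ⟨σ, hσ⟩ := Set.mem_iUnion.1 hz
    rw [Set.mem_ofPred_eq, hTA] at hσ
    have h1 := hperm _ hσ.1 σ.symm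
    simpa using h1
  have hsub2 : A \ DD N ⊆ ⋃ σ : Equiv.Perm (Fin N), {z : Fin N → ℂ | (fun i => z (σ i)) ∈ T} := by
    rintro z ⟨hz, hz2⟩
    obtain ⟨σ, hσ⟩ := sort_exists hz2
    refine Set.mem_iUnion.2 ⟨σ, ?_⟩
    rw [Set.mem_ofPred_eq, hTA]
    exact ⟨hperm z hz σ, hσ⟩
  refine Filter.EventuallyLE.antisymm (Filter.Eventually.of_forall hsub) ?_
  refine ae_le_set.2 ?_
  refine measure_mono_null ?_ null_DD
  rintro z ⟨h1, h2⟩
  by_contra h3
  exact h2 (hsub2 ⟨h1, h3⟩)

theorem image_eq (p : ℂ) (ρ : ℝ) (B : Set (Fin N → ℂ)) :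
    B ∩ Om p ρ N = Phi '' (KK N p ρ ∩ Phi ⁻¹' B) := by
  ext a
  constructor
  · rintro ⟨h1, h2⟩
    obtain ⟨z, hz⟩ := exists_roots a
    have hza := Phi_poly a z hz
    refine ⟨z, ⟨?_, ?_⟩, hza⟩
    · intro i
      refine h2 (z i) ?_
      rw [hz, P_root]
      exact ⟨i, rfl⟩
    · rw [Set.mem_preimage, hza]
      exact h1
  · rintro ⟨z, ⟨h1, h2⟩, rfl⟩
    refine ⟨h2, ?_⟩
    intro x hx
    rw [poly_Phi, P_root] at hx
    obtain ⟨i, rfl⟩ := hx
    exact h1 i

theorem volume_image (hJ : S_JAC) (A : Set (Fin N → ℂ))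
    (hperm : ∀ z ∈ A, ∀ σ : Equiv.Perm (Fin N), (fun i => z (σ i)) ∈ A) :
    (volume : Measure (Fin N → ℂ)) (Phi '' A) = volume (Phi '' (A ∩ SS N)) := by
  refine le_antisymm ?_ (measure_mono (Set.image_mono Set.inter_subset_left))
  have h0 : (volume : Measure (Fin N → ℂ)) (Phi '' DD N) = 0 :=
    addHaar_image_eq_zero_of_differentiableOn_of_addHaar_eq_zero volume
      (differentiable_Phi hJ).differentiableOn null_DD
  have hsub : Phi '' A ⊆ Phi '' (A ∩ SS N) ∪ Phi '' DD N := by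
    rintro _ ⟨z, hz, rfl⟩
    by_cases h : z ∈ DD N
    · exact Or.inr ⟨z, h, rfl⟩
    · obtain ⟨σ, hσ⟩ := sort_exists h
      exact Or.inl ⟨_, ⟨hperm z hz σ, hσ⟩, Phi_perm z σ⟩
  refine (measure_mono hsub).trans ((measure_union_le _ _).trans ?_)
  rw [h0, add_zero]

theorem mu_eq (hJ : S_JAC) (p : ℂ) (ρ : ℝ) (B : Set (Fin N → ℂ)) (hB : MeasurableSet B) :
    mu ρ N {z | Phi (fun i => z i + p) ∈ B} =
      ∫⁻ z in KK N p ρ ∩ Phi ⁻¹' B, ENNReal.ofReal (vd z) := by
  have hPhi : Measurable (Phi : (Fin N → ℂ) → (Fin N → ℂ)) :=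
    (differentiable_Phi hJ).continuous.measurable
  have hshift : Measurable fun z : Fin N → ℂ => fun i => z i + p := by
    have hc : Continuous fun z : Fin N → ℂ => fun i => z i + p := by fun_prop
    exact hc.measurable
  have hmeas : MeasurableSet {z : Fin N → ℂ | Phi (fun i => z i + p) ∈ B} :=
    (hPhi.comp hshift) hB
  have hmp : MeasurePreserving (fun z : Fin N → ℂ => fun i => z i + p) volume volume :=
    measurePreserving_add_right volume (fun _ : Fin N => p)
  have hset : MeasurableSet (KK N p ρ ∩ Phi ⁻¹' B) := (meas_KK p ρ).inter (hPhi hB)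
  have hpi : (Measure.pi fun _ : Fin N => mD ρ) = volume.restrict (KK N 0 ρ) := by
    have h1 : KK N 0 ρ = Set.univ.pi fun _ => Metric.closedBall (0 : ℂ) ρ := by
      ext z
      simp [KK, Set.mem_pi]
    rw [h1, volume_pi]
    unfold mD
    exact (Measure.restrict_pi_pi _ _).symm
  unfold mu
  rw [withDensity_apply _ hmeas, hpi, Measure.restrict_restrict hmeas]
  have h := hmp.setLIntegral_comp_preimage hset (measurable_vd (N := N))
  rw [← h]
  have hset2 : (fun z : Fin N → ℂ => fun i => z i + p) ⁻¹' (KK N p ρ ∩ Phi ⁻¹' B) =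
      {z : Fin N → ℂ | Phi (fun i => z i + p) ∈ B} ∩ KK N 0 ρ := by
    ext z
    simp only [KK, Set.mem_preimage, Set.mem_inter_iff, Set.mem_ofPred_eq, add_sub_cancel_right,
      sub_zero]
    exact and_comm
  rw [hset2]
  refine lintegral_congr fun z => ?_
  rw [vd_add]

theorem coef : S_COEF := by
  intro hJ N p ρ hρ B hB
  have hPhi : Measurable (Phi : (Fin N → ℂ) → (Fin N → ℂ)) :=
    (differentiable_Phi hJ).continuous.measurable
  have hset : MeasurableSet (KK N p ρ ∩ Phi ⁻¹' B) := (meas_KK p ρ).inter (hPhi hB)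
  have hperm : ∀ z ∈ KK N p ρ ∩ Phi ⁻¹' B, ∀ σ : Equiv.Perm (Fin N),
      (fun i => z (σ i)) ∈ KK N p ρ ∩ Phi ⁻¹' B := by
    rintro z ⟨h1, h2⟩ σ
    refine ⟨fun i => h1 (σ i), ?_⟩
    rw [Set.mem_preimage, Phi_perm]
    exact h2
  rw [image_eq, volume_image hJ _ hperm, mu_eq hJ p ρ B hB,
    image_volume hJ _ (hset.inter meas_SS) (fun z hz w hw h => inj_SS hz.2 hw.2 h)]
  exact sum_perm _ _ (hset.inter meas_SS) hperm rfl

end Pool.Agent.W253.CV
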